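import Pool.Agent.W555.EQ.Stm

/-! EQ-CONN (helper782): the complement of a hypersurface in a ball is connected and dense. -/

set_option autoImplicit false

namespace Pool.Agent.W782.EQ

open Pool.Agent.W555.EQ

/-- the restriction to a line -/
noncomputable def lin {I : Type} (R : MvPolynomial I ℂ) (a b : I → ℂ) : Polynomial ℂ :=
  MvPolynomial.eval₂ Polynomial.C (fun i => Polynomial.C (a i) + Polynomial.X * Polynomial.C (b i - a i)) R

theorem eval_lin {I : Type} (R : MvPolynomial I ℂ) (a b : I → ℂ) (z : ℂ) :
    (lin R a b).eval z = MvPolynomial.eval (a + z • (b - a)) R := by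
  unfold lin
  have h := MvPolynomial.eval₂_comp_left (Polynomial.evalRingHom z) Polynomial.C
    (fun i => Polynomial.C (a i) + Polynomial.X * Polynomial.C (b i - a i)) R
  rw [Polynomial.coe_evalRingHom] at h
  rw [h]
  unfold MvPolynomial.eval
  rw [MvPolynomial.coe_eval₂Hom]
  congr 1
  · ext; simp
  · ext i; simp

theorem ex_good {p : Polynomial ℂ} (hp : p ≠ 0) (g₁ g₂ : ℂ → ℝ) {δ : ℝ} (hδ : 0 < δ) :
    ∃ t ∈ Set.Ioo (0 : ℝ) δ, ∀ z : ℂ, p.eval z = 0 → t ≠ g₁ z ∧ t ≠ g₂ z := by
  have hf : ((g₁ '' (p.roots.toFinset : Set ℂ)) ∪ (g₂ '' (p.roots.toFinset : Set ℂ))).Finite :=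
    ((Finset.finite_toSet _).image _).union ((Finset.finite_toSet _).image _)
  have hi : (Set.Ioo (0 : ℝ) δ).Infinite := Set.Ioo_infinite hδ
  obtain ⟨t, ht, h2⟩ := (hi.sdiff hf).nonempty
  refine ⟨t, ht, fun z hz => ?_⟩
  have hz' : z ∈ (p.roots.toFinset : Set ℂ) := by
    simp only [Finset.mem_coe, Multiset.mem_toFinset]
    exact (Polynomial.mem_roots hp).2 hz
  constructor
  · intro e
    exact h2 (Or.inl ⟨z, hz', e.symm⟩)
  · intro e
    exact h2 (Or.inr ⟨z, hz', e.symm⟩)

theorem conn : StConn := by
  intro I _ R hR c d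
  constructor
  · apply isPreconnected_of_forall_pair
    rintro a ⟨ha, ha'⟩ b ⟨hb, hb'⟩
    have hp : lin R a b ≠ 0 := by
      intro h
      have := eval_lin R a b 0
      rw [h, Polynomial.eval_zero, zero_smul, add_zero] at this
      exact ha' this.symm
    -- the middle point
    set P : ℝ → (I → ℂ) := fun t => a + ((1 / 2 : ℂ) + t * Complex.I) • (b - a) with hPdef
    have hPc : Continuous P := by
      rw [hPdef]; fun_prop
    have hP0 : P 0 ∈ Metric.ball c d := by
      have h1 : P 0 = (1 / 2 : ℝ) • a + (1 / 2 : ℝ) • b := by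
        ext i
        simp only [hPdef, Complex.ofReal_zero, zero_mul, add_zero, Pi.add_apply, Pi.smul_apply,
          Pi.sub_apply, smul_eq_mul, Complex.real_smul]
        push_cast
        ring
      rw [h1]
      exact convex_ball c d ha hb (by norm_num) (by norm_num) (by norm_num)
    have hnb : P ⁻¹' Metric.ball c d ∈ nhds (0 : ℝ) :=
      hPc.continuousAt.preimage_mem_nhds (Metric.isOpen_ball.mem_nhds hP0)
    obtain ⟨δ, hδ, hδ2⟩ := Metric.mem_nhds_iff.1 hnb
    obtain ⟨t, ht, ht2⟩ := ex_good hp (fun z => z.im / (2 * z.re))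
      (fun z => -((1 - z).im / (2 * (1 - z).re))) hδ
    have hPt : P t ∈ Metric.ball c d := by
      apply hδ2
      rw [Metric.mem_ball, Real.dist_eq, sub_zero, abs_of_pos ht.1]
      exact ht.2
    refine ⟨segment ℝ a (P t) ∪ segment ℝ (P t) b, ?_, Or.inl (left_mem_segment ℝ _ _),
      Or.inr (right_mem_segment ℝ _ _), ?_⟩
    · rintro x (hx | hx)
      · refine ⟨(convex_ball c d).segment_subset ha hPt hx, ?_⟩
        obtain ⟨u, v, hu, hv, huv, rfl⟩ := hx
        have e1 : u • a + v • P t = a + ((v : ℂ) * (1 / 2 + t * Complex.I)) • (b - a) := by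
          have : (u : ℂ) = 1 - v := by
            rw [show u = 1 - v by linarith]; push_cast; ring
          ext i
          simp only [hPdef, Pi.add_apply, Pi.smul_apply, Pi.sub_apply, smul_eq_mul,
            Complex.real_smul, this]
          ring
        rw [e1, ← eval_lin]
        intro hz
        have h3 := (ht2 _ hz).1
        have hv0 : v ≠ 0 := by
          rintro rfl
          have := eval_lin R a b 0
          simp only [Complex.ofReal_zero, zero_mul] at hz
          rw [hz, zero_smul, add_zero] at this
          exact ha' this.symm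
        apply h3
        simp
        field_simp
      · refine ⟨(convex_ball c d).segment_subset hPt hb hx, ?_⟩
        obtain ⟨u, v, hu, hv, huv, rfl⟩ := hx
        have e1 : u • P t + v • b = a + (1 - (u : ℂ) * (1 / 2 - t * Complex.I)) • (b - a) := by
          have : (v : ℂ) = 1 - u := by
            rw [show v = 1 - u by linarith]; push_cast; ring
          ext i
          simp only [hPdef, Pi.add_apply, Pi.smul_apply, Pi.sub_apply, smul_eq_mul,
            Complex.real_smul, this]
          ring
        rw [e1, ← eval_lin]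
        intro hz
        have h3 := (ht2 _ hz).2
        have hu0 : u ≠ 0 := by
          rintro rfl
          have := eval_lin R a b 1
          simp only [Complex.ofReal_zero, zero_mul, sub_zero] at hz
          rw [hz, one_smul, add_sub_cancel] at this
          exact hb' this.symm
        apply h3
        simp
        field_simp
    · exact IsPreconnected.union (P t) (right_mem_segment ℝ _ _) (left_mem_segment ℝ _ _)
        (convex_segment _ _).isPreconnected (convex_segment _ _).isPreconnected
  · intro x hx
    obtain ⟨a, ha⟩ : ∃ a : I → ℂ, MvPolynomial.eval a R ≠ 0 := by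
      by_contra h
      push Not at h
      apply hR
      apply MvPolynomial.funext
      intro y
      rw [h y, map_zero]
    have hp : lin R x a ≠ 0 := by
      intro h
      have := eval_lin R x a 1
      rw [h, Polynomial.eval_zero, one_smul, add_sub_cancel] at this
      exact ha this.symm
    rw [Metric.mem_closure_iff]
    intro ε hε
    set P : ℝ → (I → ℂ) := fun t => x + (t : ℂ) • (a - x) with hPdef
    have hPc : Continuous P := by
      rw [hPdef]; fun_prop
    have hP0 : P 0 = x := by simp [hPdef]
    have hnb : P ⁻¹' (Metric.ball c d ∩ Metric.ball x ε) ∈ nhds (0 : ℝ) := by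
      apply hPc.continuousAt.preimage_mem_nhds
      rw [hP0]
      exact Filter.inter_mem (Metric.isOpen_ball.mem_nhds hx) (Metric.ball_mem_nhds x hε)
    obtain ⟨δ, hδ, hδ2⟩ := Metric.mem_nhds_iff.1 hnb
    obtain ⟨t, ht, ht2⟩ := ex_good hp (fun z => z.re) (fun z => z.re) hδ
    have hPt : P t ∈ Metric.ball c d ∩ Metric.ball x ε := by
      apply hδ2
      rw [Metric.mem_ball, Real.dist_eq, sub_zero, abs_of_pos ht.1]
      exact ht.2
    refine ⟨P t, ⟨hPt.1, ?_⟩, ?_⟩
    · intro h
      have h1 := eval_lin R x a t
      rw [h] at h1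
      exact (ht2 _ h1).1 (by simp)
    · rw [dist_comm]; exact hPt.2

end Pool.Agent.W782.EQ
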